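import Pool.Agent.R272.HalfLog.Main

set_option autoImplicit false

namespace Pool.Agent.Results.MP_c418e9_an.TriangleCounterexample

open Pool.Agent.R272.HalfLog

/-- There are a bounded convex domain `Ω ⊆ ℝ²` (an equilateral triangle) and a positive Dirichlet
eigenfunction `φ ≤ 1` of the Laplacian in `Ω` (with eigenvalue `1`) such that `√(-log φ)` is not
convex on `Ω`. -/
theorem result : ∃ (Ω : Set (ℝ × ℝ)) (φ : ℝ × ℝ → ℝ),
    IsOpen Ω ∧ Convex ℝ Ω ∧ Bornology.IsBounded Ω ∧ Ω.Nonempty ∧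
      IsPosEigenfunction Ω 1 φ ∧ (∀ p ∈ Ω, φ p ≤ 1) ∧
        ¬ ConvexOn ℝ Ω fun p => Real.sqrt (-Real.log (φ p)) :=
  ⟨Om, phi, main⟩

end Pool.Agent.Results.MP_c418e9_an.TriangleCounterexample
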